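import Pool.Agent.H.MP_c33acd_lc.I

set_option autoImplicit false

namespace Pool.Agent.H.MP_c25739_lc

open Pool.Agent.H.MP_c33acd_lc

section defs
variable {K : Type} [Group K]

def Im (a r : K) (c : ℕ) (b b' : K) : Prop :=
  InA a b' ∧ ∀ k : ℕ, k ≠ 0 → Ml a (r ^ k) (r ^ (k * c)) b b'
def Cg2 (a r s : K) (c d : ℕ) (Y b : K) : Prop :=
  ∃ b1 b2 b3, InA a b2 ∧ Im a r d b b1 ∧ Im a r c b2 b3 ∧ Y = b1 * (s * b2 * s⁻¹) * b3⁻¹
def Cd2 (a r s Y : K) (d : ℕ) (Z : K) (d' c : ℕ) (g : K) : Prop :=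
  Cg2 a r s c d Y (g * a * g⁻¹) ∧ Cg2 a r s c d' Z (cm s (g * s * g⁻¹))
def Ev2 (a r : K) (k : ℕ) (l : ℕ → K) (m : ℕ) (g : K) : Prop :=
  ∀ q : ℕ, q ≠ 0 → ∃ Y Z, ∃ d d' : ℕ, d ≠ 0 ∧ d' ≠ 0 ∧
    Cd2 a r (r ^ q) Y d Z d' (1 + q * (0 + 1)) g ∧
    Cd2 a r (r ^ q) Y d Z d' (1 + q * (m + 1)) 1 ∧
    ∀ j : ℕ, j < m → ∃ y, Cd2 a r (r ^ q) Y d Z d' (1 + q * (j + 1 + 1)) y ∧
      ∃ i : Fin k, m / k ^ j % k = i ∧ Cd2 a r (r ^ q) Y d Z d' (1 + q * (j + 1)) (l i * y)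

end defs

structure Mg (G H ι : Type) [Group G] [Group H] where
  π : G →* H
  surj : Function.Surjective π
  D : G → H →₀ (ι → ℤ)
  mul : ∀ g g', D (g * g') = D g + ac (π g) (D g')
  inj : ∀ {g : G}, π g = 1 → D g = 0 → g = 1

namespace Mg
variable {G H ι : Type} [Group G] [Group H] (S : Mg G H ι)

lemma D_one : S.D 1 = 0 := by
  have := S.mul 1 1
  simpa using this

lemma D_inv (g : G) : S.D g⁻¹ = -ac (S.π g)⁻¹ (S.D g) := by
  have := S.mul g⁻¹ g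
  rw [inv_mul_cancel, D_one, map_inv] at this
  exact eq_neg_of_add_eq_zero_left this.symm

lemma ext' {g g' : G} (h1 : S.π g = S.π g') (h2 : S.D g = S.D g') : g = g' := by
  have : g'⁻¹ * g = 1 := S.inj (by simp [h1]) (by rw [S.mul, D_inv, map_inv, h2]; simp)
  exact (inv_mul_eq_one.mp this).symm

lemma D_mulA {α : G} (h : S.π α = 1) (g : G) : S.D (α * g) = S.D α + S.D g := by
  rw [S.mul, h, ac_one]

lemma D_invA {α : G} (h : S.π α = 1) : S.D α⁻¹ = -S.D α := by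
  rw [D_inv, h, inv_one, ac_one]

lemma D_conj (g w : G) : S.D (g * w * g⁻¹) =
    S.D g + ac (S.π g) (S.D w) - ac (S.π (g * w * g⁻¹)) (S.D g) := by
  rw [S.mul, S.mul, D_inv, map_neg, ← ac_mul, sub_eq_add_neg]; simp

lemma D_conjA {α : G} (h : S.π α = 1) (g : G) : S.D (g * α * g⁻¹) = ac (S.π g) (S.D α) := by
  rw [D_conj]; simp [h]

lemma D_zpowA {α : G} (h : S.π α = 1) (e : ℤ) : S.D (α ^ e) = e • S.D α := by
  induction e using Int.induction_on with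
  | zero => simp [D_one]
  | succ n ih => rw [zpow_add_one, D_mulA _ (by simp [h]), ih, add_one_zsmul]
  | pred n ih =>
    rw [zpow_sub_one, D_mulA _ (by simp [h]), ih, D_invA _ h, sub_smul, one_smul, sub_eq_add_neg]

lemma commA {α β : G} (h : S.π α = 1) (h' : S.π β = 1) : α * β = β * α :=
  S.ext' (by simp [h, h']) (by rw [S.D_mulA h, S.D_mulA h', add_comm])

def DA : AddSubgroup (H →₀ (ι → ℤ)) where
  carrier := {m | ∃ α, S.π α = 1 ∧ S.D α = m}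
  zero_mem' := ⟨1, map_one _, S.D_one⟩
  add_mem' := by
    rintro _ _ ⟨α, h1, rfl⟩ ⟨β, h2, rfl⟩
    exact ⟨α * β, by simp [h1, h2], S.D_mulA h1 _⟩
  neg_mem' := by
    rintro _ ⟨α, h1, rfl⟩
    exact ⟨α⁻¹, by simp [h1], S.D_invA h1⟩

lemma mem_DA {α : G} (h : S.π α = 1) : S.D α ∈ S.DA := ⟨α, h, rfl⟩

lemma DA_ac : ∀ h, ∀ m ∈ S.DA, ac h m ∈ S.DA := by
  rintro h _ ⟨α, h1, rfl⟩
  obtain ⟨g, rfl⟩ := S.surj h
  exact ⟨g * α * g⁻¹, by simp [h1], S.D_conjA h1 g⟩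

lemma π_cm {b : G} (h : S.π b = 1) (u : G) : S.π (cm u b) = 1 := by simp [cm, h]

lemma D_cm {b : G} (h : S.π b = 1) (u : G) : S.D (cm u b) = T (S.π u) (S.D b) := by
  rw [cm, S.D_mulA (by simp [h]), S.D_conjA h, S.D_invA h, T_apply, sub_eq_add_neg]

lemma eqA {α β : G} (h : S.π α = 1) (h' : S.π β = 1) : α = β ↔ S.D α = S.D β :=
  ⟨fun e => by rw [e], fun e => S.ext' (by rw [h, h']) e⟩

def Bq (N : Subgroup H) [hN : N.Normal] (q : ℕ) : Subgroup G where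
  carrier := {y | S.π y ∈ N ∧ ∀ c i, (q : ℤ) ∣ Finsupp.mapDomain (QuotientGroup.mk' N) (S.D y) c i}
  one_mem' := ⟨by simp, by simp [S.D_one]⟩
  mul_mem' := by
    rintro y z ⟨h1, h2⟩ ⟨h3, h4⟩
    refine ⟨by rw [map_mul]; exact N.mul_mem h1 h3, fun c i => ?_⟩
    rw [S.mul, Finsupp.mapDomain_add, ac_map, show QuotientGroup.mk' N (S.π y) = 1 from
      (QuotientGroup.eq_one_iff _).mpr h1, ac_one]
    exact dvd_add (h2 c i) (h4 c i)
  inv_mem' := by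
    rintro y ⟨h1, h2⟩
    refine ⟨by rw [map_inv]; exact N.inv_mem h1, fun c i => ?_⟩
    have e := congrArg (Finsupp.mapDomain (QuotientGroup.mk' N)) (S.mul y y⁻¹)
    rw [mul_inv_cancel, S.D_one, Finsupp.mapDomain_add, ac_map,
      show QuotientGroup.mk' N (S.π y) = 1 from (QuotientGroup.eq_one_iff _).mpr h1, ac_one,
      Finsupp.mapDomain_zero] at e
    rw [eq_neg_of_add_eq_zero_right e.symm]
    exact (h2 c i).neg_right

instance (N : Subgroup H) [hN : N.Normal] (q : ℕ) : (S.Bq N q).Normal := ⟨by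
  rintro y ⟨h1, h2⟩ g
  have h3 : S.π (g * y * g⁻¹) ∈ N := by simpa using hN.conj_mem _ h1 (S.π g)
  refine ⟨h3, fun c i => ?_⟩
  rw [S.D_conj, Finsupp.mapDomain_sub, Finsupp.mapDomain_add, ac_map, ac_map,
    show QuotientGroup.mk' N (S.π (g * y * g⁻¹)) = 1 from (QuotientGroup.eq_one_iff _).mpr h3,
    ac_one, add_sub_cancel_left, ac_apply]
  exact h2 _ _⟩

lemma Bq_sep [Group.ResiduallyFinite H] {y : G} (h : ∀ (N : Subgroup H) [N.Normal] [N.FiniteIndex]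
    (q : ℕ), q ≠ 0 → y ∈ S.Bq N q) : y = 1 := by
  classical
  refine S.inj (Group.eq_one_iff_forall_finiteIndexNormalSubroup _ fun M =>
    (h M.toSubgroup 1 one_ne_zero).1) ?_
  ext p i
  by_contra hi
  have hp : p ∈ (S.D y).support := Finsupp.mem_support_iff.mpr fun e => hi (by simp [e])
  obtain ⟨N, h1, h2, h3⟩ := exists_avoid
    (Finset.image₂ (fun p q => p⁻¹ * q) (S.D y).support (S.D y).support)
  have := (h N ((S.D y p i).natAbs + 1) (by omega)).2 (QuotientGroup.mk' N p) i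
  rw [Finsupp.mapDomain_apply' (f := QuotientGroup.mk' N) (S.D y).support _ subset_rfl (fun u hu v hv e =>
    inv_mul_eq_one.mp (h3 _ (Finset.mem_image₂_of_mem hu hv) (QuotientGroup.eq.mp e))) hp] at this
  have := Int.natAbs_le_of_dvd_ne_zero this hi
  simp only [Int.natAbs_natCast] at this
  omega

structure Par (N Λ : Subgroup H) (a r : G) : Prop where
  tf : TF H
  a1 : S.π a = 1
  a0 : a ≠ 1
  nN : N.Normal
  pin : Pin N (S.D a)
  rN : S.π r ∈ N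
  r0 : S.π r ≠ 1
  nΛ : Λ.Normal
  cΛ : ∀ x ∈ Λ, ∀ y ∈ Λ, x * y = y * x
  rΛ : S.π r ∈ Λ

variable {S} {N Λ : Subgroup H} {a r : G} (P : S.Par N Λ a r)
include P

lemma Par.Da : S.D a ≠ 0 := fun h => P.a0 (S.inj P.a1 h)

lemma Par.inA (y : G) : InA a y ↔ S.π y = 1 := by
  refine ⟨fun h => ?_, fun h => S.commA h P.a1⟩
  by_contra hy
  apply P.Da
  apply fpf P.tf hy
  rw [← S.D_conjA P.a1, h]; simp

lemma Par.ex2 {t x y : G} (hx : S.π x = 1) (hy : S.π y = 1) :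
    (∃ e, InA a e ∧ x = y * cm t (cm t e)) ↔
      S.D x - S.D y ∈ (S.DA.map (T (S.π t))).map (T (S.π t)) := by
  constructor
  · rintro ⟨e, he, rfl⟩
    rw [P.inA] at he
    rw [S.D_mulA hy, S.D_cm (S.π_cm he _), S.D_cm he, add_sub_cancel_left]
    exact AddSubgroup.mem_map_of_mem _ (AddSubgroup.mem_map_of_mem _ (S.mem_DA he))
  · rintro ⟨_, ⟨_, ⟨e, he, rfl⟩, rfl⟩, h⟩
    refine ⟨e, (P.inA _).mpr he, ?_⟩
    rw [S.eqA hx (by simp [hy, S.π_cm (S.π_cm he _)]), S.D_mulA hy, S.D_cm (S.π_cm he _),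
      S.D_cm he, h, add_sub_cancel]

lemma Par.TT {t : H} (ht : t ≠ 1) (m : H →₀ (ι → ℤ)) :
    T t m ∈ (S.DA.map (T t)).map (T t) ↔ m ∈ S.DA.map (T t) :=
  ⟨fun ⟨_, h, e⟩ => T_inj P.tf ht e ▸ h, AddSubgroup.mem_map_of_mem _⟩

lemma Par.ml {t u b b' : G} {c : ℤ} (hu : S.π u = S.π t ^ c) (ht : S.π t ≠ 1) (hb : S.π b = 1) :
    Ml a t u b b' ↔ S.π b' = 1 ∧ c • S.D b - S.D b' ∈ S.DA.map (T (S.π t)) := by
  rw [Ml, P.inA]
  refine and_congr_right fun hb' => ?_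
  rw [P.ex2 (S.π_cm hb _) (S.π_cm hb' _), S.D_cm hb, S.D_cm hb', hu, ← P.TT ht]
  rw [map_sub, map_zsmul, T_apply (_ ^ c)]
  apply mem_iff_sub
  convert pw2 _ S.DA_ac (S.π t) c (S.mem_DA hb) using 1; abel

lemma Par.cyc {t : G} (ht : S.π t ∈ N) (u : G) : Cyc a t u ↔ ∃ c : ℤ, S.π u = S.π t ^ c := by
  classical
  have := P.nN
  constructor
  · rintro ⟨b, hb, e⟩
    rw [P.inA] at hb
    rw [S.eqA (S.π_cm P.a1 _) (S.π_cm hb _), S.D_cm P.a1, S.D_cm hb, T_apply, T_apply] at e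
    have c := ch_ind (Subgroup.zpowers (S.π t))
    have h1 := Pool.Agent.H.MP_c33acd_lc.pin P.tf c (Subgroup.zpowers_le_of_mem ht) P.Da P.pin 1
      (S.π u) (fun h' i => by
        rw [ac_one, eq_add_of_sub_eq e, map_add, map_sub, c.E_ac (Subgroup.mem_zpowers _)]
        simp)
    obtain ⟨k, hk⟩ := (c.ne _).mp (h1.trans_ne one_ne_zero)
    exact ⟨k, by simpa using hk.symm⟩
  · rintro ⟨c, hc⟩
    obtain ⟨_, ⟨b, hb, rfl⟩, e⟩ := pw1 _ S.DA_ac (S.π t) c (S.mem_DA P.a1)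
    refine ⟨b, (P.inA _).mpr hb, ?_⟩
    rw [S.eqA (S.π_cm P.a1 _) (S.π_cm hb _), S.D_cm P.a1, S.D_cm hb, e, hc, T_apply]

lemma Par.nd {t t' : H} (ht : t ∈ N) (ht' : t' ∈ N) {e : ℤ} {m m' : H →₀ (ι → ℤ)}
    (hm : m ∈ S.DA.map (T t)) (hm' : m' ∈ S.DA.map (T t')) (h : e • S.D a = m - m') : e = 0 := by
  classical
  have := P.nN
  have c := ch_ind N
  obtain ⟨p, hp⟩ := Finsupp.support_nonempty_iff.mpr P.Da
  obtain ⟨i, hi⟩ := Function.ne_iff.mp (Finsupp.mem_support_iff.mp hp)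
  obtain ⟨m, -, rfl⟩ := hm
  obtain ⟨m', -, rfl⟩ := hm'
  have h1 := congrArg (E (fun g => if g ∈ N then (1 : ℤ) else 0) (1 * p) i) h
  have h2 := E_at c le_rfl P.pin 1 1 hp i (by simp)
  rw [ac_one] at h2
  rw [map_zsmul, h2, T_apply, T_apply, map_sub, map_sub, map_sub, c.E_ac ht, c.E_ac ht'] at h1
  simpa [ht, ht', show S.D a p i ≠ 0 from hi] using h1

lemma Par.std : Std a r := by
  refine ⟨fun y => ?_, fun e he => P.tf.zpow P.r0 (by rw [← map_zpow, he, map_one]),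
    fun e1 e2 e3 => ?_⟩
  · rw [It, P.cyc P.rN]
    constructor
    · rintro ⟨⟨c, hc⟩, h⟩
      refine ⟨c, ?_⟩
      have h1 : S.π (y * (r ^ c)⁻¹) = 1 := by simp [hc]
      have h2 : Commute r (y * (r ^ c)⁻¹) :=
        (show Commute r y from h.symm).mul_right ((Commute.refl r).zpow_right c).inv_right
      have h3 := S.D_conjA h1 r
      rw [h2.eq, mul_inv_cancel_right] at h3
      exact mul_inv_eq_one.mp (S.inj h1 (fpf P.tf P.r0 h3.symm))
    · rintro ⟨e, rfl⟩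
      exact ⟨⟨e, map_zpow _ _ _⟩, ((Commute.refl r).zpow_left e).eq⟩
  · simp only [Mu, P.ml (map_zpow _ r e1) P.r0 P.a1]
    have key : ∀ b, S.π b = 1 → ((∃ e, InA a e ∧ cm (r ^ e2) b = cm (r ^ e3) a * cm r (cm r e)) ↔
        e2 • S.D b - e3 • S.D a ∈ S.DA.map (T (S.π r))) := by
      intro b hb
      rw [P.ex2 (S.π_cm hb _) (S.π_cm P.a1 _), S.D_cm hb, S.D_cm P.a1, map_zpow, map_zpow,
        ← P.TT P.r0]
      rw [map_sub, map_zsmul, map_zsmul, T_apply (_ ^ e2), T_apply (_ ^ e3)]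
      apply mem_iff_sub
      convert sub_mem (pw2 _ S.DA_ac (S.π r) e2 (S.mem_DA hb))
        (pw2 _ S.DA_ac (S.π r) e3 (S.mem_DA P.a1)) using 1; abel
    constructor
    · rintro ⟨b, ⟨hb, h1⟩, h2⟩
      rw [key b hb] at h2
      have := P.nd P.rN P.rN (e := e1 * e2 - e3) (add_mem (zsmul_mem h1 e2) h2) (zero_mem _)
        (by module)
      omega
    · rintro rfl
      have hb : S.π (a ^ e1) = 1 := by simp [P.a1]
      refine ⟨a ^ e1, ⟨hb, by simp [S.D_zpowA P.a1]⟩, (key _ hb).mpr ?_⟩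
      rw [S.D_zpowA P.a1, smul_smul, mul_comm, sub_self]; exact zero_mem _

lemma Par.τ1 {s : G} (hs : S.π s ∈ Λ) (g : G) : S.π (cm s (g * s * g⁻¹)) = 1 := by
  have := P.cΛ _ hs _ (P.nΛ.conj_mem _ hs (S.π g))
  simp only [cm, map_mul, map_inv]
  rw [this]; group

lemma Par.rk {k : ℕ} (hk : k ≠ 0) : S.π (r ^ k) ≠ 1 := fun e =>
  P.r0 (P.tf _ k hk (by rwa [← map_pow]))

lemma Par.im [Group.ResiduallyFinite H] {b b' : G} (hb : S.π b = 1) (c : ℕ) :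
    Im a r c b b' ↔ b' = b ^ c := by
  classical
  have h1 : ∀ k : ℕ, S.π (r ^ (k * c)) = S.π (r ^ k) ^ (c : ℤ) := fun k => by
    rw [pow_mul, map_pow, zpow_natCast]
  have hc : S.π (b ^ c) = 1 := by simp [hb]
  have hD : S.D (b ^ c) = (c : ℤ) • S.D b := by rw [← zpow_natCast, S.D_zpowA hb]
  rw [Im, P.inA]
  constructor
  · rintro ⟨hb', h⟩
    rw [S.eqA hb' hc, hD, eq_comm, ← sub_eq_zero]
    set y := (c : ℤ) • S.D b - S.D b'
    ext p i
    obtain ⟨M, h2, h3, h4⟩ := exists_avoid (y.support.image (· * p⁻¹))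
    obtain ⟨m, -, hm⟩ := ((P.ml (h1 _) (P.rk h3.index_ne_zero) hb).mp (h _ h3.index_ne_zero)).2
    have hM : S.π (r ^ M.index) ∈ M := by rw [map_pow]; exact Subgroup.pow_index_mem _ _
    have h5 := E_one (fun g => if g ∈ M then (1 : ℤ) else 0) p i y fun q hq h0 =>
      mul_inv_eq_one.mp (h4 _ (Finset.mem_image_of_mem _ hq) (((ch_ind M).ne _).mp h0))
    have h6 : E (fun g => if g ∈ M then (1 : ℤ) else 0) p i y = 0 := by
      rw [show y = _ from hm.symm, T_apply, map_sub, (ch_ind M).E_ac hM, if_pos hM, one_mul,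
        sub_self]
    rw [h6] at h5
    simpa using h5.symm
  · rintro rfl
    exact ⟨hc, fun k hk => (P.ml (h1 k) (P.rk hk) hb).mpr ⟨hc, by rw [hD, sub_self]; simp⟩⟩

omit P in
def W (S : Mg G H ι) (s : H) (c d : ℤ) (Y : G) (m : H →₀ (ι → ℤ)) : Prop :=
  S.π Y = 1 ∧ ∃ m' ∈ S.DA, S.D Y - d • m = ac s m' - c • m'

lemma Par.cg [Group.ResiduallyFinite H] {s Y b : G} {c d : ℕ} (hb : S.π b = 1) :
    Cg2 a r s c d Y b ↔ S.W (S.π s) c d Y (S.D b) := by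
  simp only [Cg2, P.inA, P.im hb]
  have key : ∀ b2, S.π b2 = 1 → S.D (b ^ d * (s * b2 * s⁻¹) * (b2 ^ c)⁻¹) - (d : ℤ) • S.D b =
      ac (S.π s) (S.D b2) - (c : ℤ) • S.D b2 := fun b2 h2 => by
    rw [S.D_mulA (by simp [hb, h2]), S.D_mulA (by simp [hb]), S.D_conjA h2,
      S.D_invA (by simp [h2]), ← zpow_natCast, ← zpow_natCast, S.D_zpowA hb, S.D_zpowA h2]
    abel
  constructor
  · rintro ⟨_, b2, b3, h2, rfl, h3, rfl⟩
    rw [P.im h2] at h3
    subst h3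
    exact ⟨by simp [hb, h2], _, S.mem_DA h2, key b2 h2⟩
  · rintro ⟨hY, _, ⟨b2, h2, rfl⟩, h⟩
    refine ⟨_, b2, _, h2, rfl, (P.im h2 _).mpr rfl, ?_⟩
    rw [S.eqA hY (by simp [hb, h2]), ← sub_left_inj, h, key b2 h2]

lemma Par.cd [Group.ResiduallyFinite H] {s Y Z g : G} {c d d' : ℕ} (hs : S.π s ∈ Λ) :
    Cd2 a r s Y d Z d' c g ↔ S.W (S.π s) c d Y (ac (S.π g) (S.D a)) ∧
      S.W (S.π s) c d' Z (S.D (cm s (g * s * g⁻¹))) := by
  rw [Cd2, P.cg (by simp [P.a1]), P.cg (P.τ1 hs g), S.D_conjA P.a1]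

omit P in
lemma lagr (S : Mg G H ι) (s : H) (c : ℕ → ℤ) (hc : Function.Injective c)
    (b : ℕ → H →₀ (ι → ℤ)) (hb : ∀ j, b j ∈ S.DA) (L : ℕ) :
    ∃ (d : ℕ) (Y : G), d ≠ 0 ∧ ∀ j < L, S.W s (c j) d Y (b j) := by
  let σ : Module.End ℤ S.DA :=
    (((ac s).comp S.DA.subtype).codRestrict S.DA (fun m => S.DA_ac s _ m.2)).toIntLinearMap
  obtain ⟨d, Y, hd, h⟩ := lagrange σ c hc (fun j => ⟨b j, hb j⟩) L
  obtain ⟨Y', hY, e⟩ := (d • Y).2
  refine ⟨(d * d).toNat, Y', by have := mul_self_pos.mpr hd; omega, fun j hj => ⟨hY, ?_⟩⟩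
  obtain ⟨m, hm⟩ := h j hj
  have : (Y : H →₀ (ι → ℤ)) - d • b j = ac s m - c j • (m : H →₀ (ι → ℤ)) :=
    congrArg Subtype.val hm
  refine ⟨d • m, S.DA.zsmul_mem m.2 d, ?_⟩
  rw [e, Int.toNat_of_nonneg (mul_self_nonneg d), map_zsmul, smul_comm (c j), ← smul_sub, ← this,
    smul_sub, mul_smul]
  rfl

theorem Par.complete [Group.ResiduallyFinite H] {k : ℕ} (hk : 1 < k) {l : ℕ → G} (h0 : l 0 = 1)
    (m : ℕ) : Ev2 a r k l m (ev k l m) := by
  intro q hq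
  have sΛ : S.π (r ^ q) ∈ Λ := by rw [map_pow]; exact Λ.pow_mem P.rΛ _
  have hc : Function.Injective fun j : ℕ => ((1 + q * (j + 1) : ℕ) : ℤ) := by
    intro x y h
    have : 1 + q * (x + 1) = 1 + q * (y + 1) := Nat.cast_injective (R := ℤ) h
    simpa [hq] using this
  obtain ⟨d, Y, hd, h1⟩ := S.lagr (S.π (r ^ q)) _ hc
    (fun j => ac (S.π (ev k l (m / k ^ j))) (S.D a)) (fun j => S.DA_ac _ _ (S.mem_DA P.a1)) (m + 1)
  obtain ⟨d', Z, hd', h2⟩ := S.lagr (S.π (r ^ q)) _ hc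
    (fun j => S.D (cm (r ^ q) (ev k l (m / k ^ j) * r ^ q * (ev k l (m / k ^ j))⁻¹)))
    (fun j => S.mem_DA (P.τ1 sΛ _)) (m + 1)
  have h3 : ∀ j < m + 1, Cd2 a r (r ^ q) Y d Z d' (1 + q * (j + 1)) (ev k l (m / k ^ j)) :=
    fun j hj => (P.cd sΛ).mpr ⟨h1 j hj, h2 j hj⟩
  refine ⟨Y, Z, d, d', hd, hd', ?_, ?_, fun j hj => ?_⟩
  · simpa using h3 0 (by omega)
  · have := h3 m (by omega)
    rwa [Nat.div_eq_of_lt (Nat.lt_pow_self hk), ev_zero] at this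
  · refine ⟨_, h3 (j + 1) (by omega), ⟨m / k ^ j % k, Nat.mod_lt _ (by omega)⟩, rfl, ?_⟩
    have := h3 j (by omega)
    rwa [ev_step hk h0, Nat.div_div_eq_div_mul, ← pow_succ] at this

lemma Par.key (M : Subgroup H) [M.Normal] {q : ℕ} {s : G}
    (sN : S.π s ∈ N) (sΛ : S.π s ∈ Λ) (sM : S.π s ∈ M) (s0 : S.π s ≠ 1) {c d d' : ℤ} (hc : 2 ≤ c)
    (hqc : (q : ℤ) ∣ c - 1) (hd : d ≠ 0) (hd' : d' ≠ 0) {Y Z g g' : G}
    (h1 : S.W (S.π s) c d Y (ac (S.π g) (S.D a)))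
    (h2 : S.W (S.π s) c d' Z (S.D (cm s (g * s * g⁻¹))))
    (h1' : S.W (S.π s) c d Y (ac (S.π g') (S.D a)))
    (h2' : S.W (S.π s) c d' Z (S.D (cm s (g' * s * g'⁻¹)))) : g' * g⁻¹ ∈ S.Bq M q := by
  have := P.nN
  have ind : ∀ h (k j : ℤ), (h * S.π s * h⁻¹) ^ k = 1 ^ j → k = 0 := fun h k j e =>
    P.tf.zpow (h := h * S.π s * h⁻¹) (by simpa using s0) (by simpa using e)
  let R := Localization.Away c
  have hp : Submonoid.powers c ≤ nonZeroDivisors ℤ :=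
    powers_le_nonZeroDivisors_of_noZeroDivisors (by omega)
  have : IsDomain R := IsLocalization.isDomain_localization hp
  have : CharZero R := charZero_of_injective_algebraMap (IsLocalization.injective R hp)
  obtain ⟨u, hu⟩ := IsLocalization.Away.algebraMap_isUnit (S := R) c
  have hu' : (u : R) = (c : R) := by simpa using hu
  have hu1 : ∀ i : ℤ, ((u ^ i : Rˣ) : R) = 1 → i = 0 := by
    intro i hi
    have h3 : u ^ i.natAbs = 1 := by
      rw [Units.val_eq_one] at hi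
      rcases Int.natAbs_eq i with h | h <;> rw [h] at hi <;> simpa using hi
    have h4 : ((c ^ i.natAbs : ℤ) : R) = (1 : ℤ) := by
      rw [Int.cast_pow, ← hu', ← Units.val_pow_eq_pow_val, h3]; simp
    have h5 := Int.cast_injective h4
    by_contra h0
    have := one_lt_pow₀ (show 1 < c by omega) (show i.natAbs ≠ 0 by omega)
    omega
  obtain ⟨Γ, χ, ch, hΓ, hχ⟩ := exists_ch (S.π s) 1 (by simp)
    (fun k j h => ind 1 k j (by simpa using h)) u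
  have hle : ∀ X : Subgroup H, S.π s ∈ X → Γ ≤ X := by
    intro X hs γ hγ
    obtain ⟨i, j, rfl⟩ := hΓ γ hγ
    exact X.mul_mem (X.zpow_mem hs _) (X.zpow_mem X.one_mem _)
  have χs : χ (S.π s) = c := by simpa [hu'] using hχ 1 0
  have sΓ : S.π s ∈ Γ := (ch.ne _).mp (χs.trans_ne (Int.cast_ne_zero.mpr (by omega)))
  have hW : ∀ {e : ℤ} {X : G} {m m' : H →₀ (ι → ℤ)}, e ≠ 0 → S.W (S.π s) c e X m →
      S.W (S.π s) c e X m' → ∀ h' i, E χ h' i m = E χ h' i m' := by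
    have : ∀ {e : ℤ} {X : G} {m : H →₀ (ι → ℤ)}, S.W (S.π s) c e X m → ∀ h' i,
        E χ h' i (S.D X) = e * E χ h' i m := by
      rintro e X m ⟨-, m1, -, h⟩ h' i
      have := congrArg (E χ h' i) h
      rw [map_sub, map_sub, map_zsmul, map_zsmul, ch.E_ac sΓ, χs, zsmul_eq_mul,
        zsmul_eq_mul] at this
      linear_combination this
    intro e X m m' he h h' x i
    exact mul_left_cancel₀ (Int.cast_ne_zero.mpr he) ((this h x i).symm.trans (this h' x i))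
  have h3 := Pool.Agent.H.MP_c33acd_lc.pin P.tf ch (hle _ sN) P.Da P.pin _ _ (hW hd h1 h1')
  obtain ⟨y, rfl⟩ : ∃ y, g' = y * g := ⟨g' * g⁻¹, by group⟩
  rw [map_mul, mul_inv_cancel_right] at h3
  have yΓ : S.π y ∈ Γ := (ch.ne _).mp (h3.trans_ne one_ne_zero)
  have yΛ := hle _ sΛ yΓ
  set w := g * s * g⁻¹ with hw
  have wΛ : S.π w ∈ Λ := by simpa [hw] using P.nΛ.conj_mem _ sΛ (S.π g)
  have hτ : ∀ v, S.π v ∈ Λ → S.D (cm s v) = S.D s + ac (S.π s) (S.D v) - S.D v -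
      ac (S.π v) (S.D s) := by
    intro v hv
    have e : S.π (s * v * s⁻¹) = S.π v := by
      rw [map_mul, map_mul, P.cΛ _ sΛ _ hv]; simp
    rw [cm, S.mul, S.D_conj, S.D_inv, e, map_neg, ← ac_mul, mul_inv_cancel, ac_one]; abel
  have e1 : S.π (y * w * y⁻¹) = S.π w := by
    rw [map_mul, map_mul, P.cΛ _ yΛ _ wΛ]; simp
  have h4 := hW hd' h2 h2'
  rw [show y * g * s * (y * g)⁻¹ = y * w * y⁻¹ by rw [hw]; group, hτ _ wΛ, hτ _ (e1 ▸ wΛ), e1,
    S.D_conj y w, e1] at h4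
  have h5 := cancel ch (S.π w) (fun γ hγ => P.cΛ _ wΛ _ (hle _ sΛ hγ)) (fun k hk => by
    obtain ⟨i, j, e⟩ := hΓ _ ((ch.ne _).mp (hk.trans_ne one_ne_zero))
    rw [e, hχ] at hk
    rw [hu1 i hk, zpow_zero, one_mul, hw, map_mul, map_mul, map_inv, ← zpow_natCast] at e
    exact_mod_cast ind _ _ _ e) (S.D y) (fun h' i => by
    have := h4 h' i
    simp only [map_sub, map_add, ch.E_ac sΓ, ch.E_ac yΓ, χs, h3] at this
    have h6 : (c : R) - 1 ≠ 0 := by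
      have : ((c - 1 : ℤ) : R) ≠ 0 := Int.cast_ne_zero.mpr (by omega)
      simpa using this
    apply mul_left_cancel₀ h6
    linear_combination this)
  have hc1 : (c : ZMod q) = 1 := by
    have := (ZMod.intCast_zmod_eq_zero_iff_dvd _ _).mpr hqc
    rwa [Int.cast_sub, Int.cast_one, sub_eq_zero] at this
  let f : R →+* ZMod q := IsLocalization.Away.lift c (g := Int.castRingHom (ZMod q))
    (by simp [hc1])
  have hM := hle M sM
  rw [mul_inv_cancel_right]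
  refine ⟨hM yΓ, red ch hM q f (fun γ hγ => ?_) _ h5⟩
  obtain ⟨i, j, rfl⟩ := hΓ γ hγ
  have : Units.map (f : R →* ZMod q) u = 1 := Units.ext (by
    change f u = 1
    rw [hu', map_intCast, hc1])
  rw [hχ]
  change ((Units.map (f : R →* ZMod q) (u ^ i) : (ZMod q)ˣ) : ZMod q) = 1
  rw [map_zpow, this]; simp

theorem Par.sound [Group.ResiduallyFinite H] {k : ℕ} (hk : 1 < k) {l : ℕ → G} (h0 : l 0 = 1)
    {m : ℕ} {g : G} (h : Ev2 a r k l m g) : g = ev k l m := by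
  rw [← mul_inv_eq_one]
  refine S.Bq_sep fun M _ hM q' hq' => ?_
  have q0 : q' * M.index ≠ 0 := mul_ne_zero hq' hM.index_ne_zero
  set q := q' * M.index with hq
  have hp : ∀ X : Subgroup H, S.π r ∈ X → S.π (r ^ q) ∈ X := fun X h => by
    rw [map_pow]; exact X.pow_mem h _
  have sM : S.π (r ^ q) ∈ M := by
    rw [map_pow, hq, pow_mul]; exact Subgroup.pow_index_mem _ _
  obtain ⟨Y, Z, d, d', h2, h4, h5, h6, h7⟩ := h q q0
  have key : ∀ j x x', Cd2 a r (r ^ q) Y d Z d' (1 + q * (j + 1)) x →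
      Cd2 a r (r ^ q) Y d Z d' (1 + q * (j + 1)) x' → (x' : G ⧸ S.Bq M q') = x := by
    intro j x x' hx hx'
    rw [P.cd (hp _ P.rΛ)] at hx hx'
    have := P.key M (q := q') (hp _ P.rN) (hp _ P.rΛ) sM (P.rk q0) (by
        have : 1 ≤ q * (j + 1) := Nat.pos_of_ne_zero (by simp [q0])
        omega) (by simp [hq, mul_assoc]) (by simpa using h2) (by simpa using h4)
      hx.1 hx.2 hx'.1 hx'.2
    rw [← mul_inv_eq_one, ← QuotientGroup.mk_inv, ← QuotientGroup.mk_mul,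
      QuotientGroup.eq_one_iff]
    exact this
  have main : ∀ i j, i + j = m → ∀ x, Cd2 a r (r ^ q) Y d Z d' (1 + q * (j + 1)) x →
      (x : G ⧸ S.Bq M q') = ev k l (m / k ^ j) := by
    intro i
    induction i with
    | zero =>
      rintro j hj x hx
      rw [zero_add] at hj
      subst hj
      rw [Nat.div_eq_of_lt (Nat.lt_pow_self hk), ev_zero, key _ _ _ h6 hx]
    | succ i ih =>
      intro j hj x hx
      obtain ⟨y, hy, i', hi', hy'⟩ := h7 j (by omega)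
      rw [key _ _ _ hy' hx, ev_step hk h0, hi', QuotientGroup.mk_mul, QuotientGroup.mk_mul,
        ih (j + 1) (by omega) y hy, Nat.div_div_eq_div_mul, ← pow_succ]
  have := main m 0 rfl g h5
  rw [pow_zero, Nat.div_one, ← mul_inv_eq_one, ← QuotientGroup.mk_inv, ← QuotientGroup.mk_mul,
    QuotientGroup.eq_one_iff] at this
  exact this

theorem Par.ev_iff [Group.ResiduallyFinite H] {k : ℕ} (hk : 1 < k) {l : ℕ → G} (h0 : l 0 = 1)
    (m : ℕ) (g : G) : Ev2 a r k l m g ↔ g = ev k l m :=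
  ⟨P.sound hk h0, fun h => h ▸ P.complete hk h0 m⟩

omit P in
theorem exists_par [Group.ResiduallyFinite H] (S : Mg G H ι) (tf : TF H) {a s : G}
    (a1 : S.π a = 1) (a0 : a ≠ 1) (s0 : S.π s ≠ 1) (Λ : Subgroup H) (nΛ : Λ.Normal)
    (cΛ : ∀ x ∈ Λ, ∀ y ∈ Λ, x * y = y * x) (sΛ : S.π s ∈ Λ) : ∃ N r, S.Par N Λ a r := by
  classical
  let X := (S.D a).support
  obtain ⟨N, h1, h2, h3⟩ := exists_avoid (Finset.image₂ (fun p q => p * q)
    (Finset.image₂ (fun p q => p * q⁻¹) (Finset.image₂ (fun p q => p⁻¹ * q) X X) X) X)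
  exact ⟨N, s ^ N.index, tf, a1, a0, h1,
    fun p1 h1 p2 h2 p3 h3' p4 h4 => h3 _ (Finset.mem_image₂_of_mem (Finset.mem_image₂_of_mem
      (Finset.mem_image₂_of_mem h1 h2) h3') h4),
    by rw [map_pow]; exact Subgroup.pow_index_mem _ _,
    fun e => s0 (tf _ _ h2.index_ne_zero (by rwa [← map_pow])), nΛ, cΛ,
    by rw [map_pow]; exact Λ.pow_mem sΛ _⟩

end Mg

section md
variable {X : LS} {α β : Type} {x1 x2 x3 x4 : Tm α β} {f1 f2 f3 : (β → ℕ) → ℕ}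

lemma D_Im (h1 : NT β f1) (h2 : MT X CS α β x1) (h3 : MT X CS α β x2) :
    MD X CS α β fun K _ a r v n => Im a r (f1 n) (x1 K a r v n) (x2 K a r v n) :=
  (D_InA h3).and (MD.allN ((MD.ar (Ar.eq (NT.var none) (NT.const 0)).not).imp
    (D_Ml (MT.num none) (MT.pow ((NT.var none).mul (h1.rel _))) (h2.rel _ _) (h3.rel _ _))))

lemma D_Cg2 (h1 : MT X CS α β x1) (h2 : NT β f1) (h3 : NT β f2) (h4 : MT X CS α β x2)
    (h5 : MT X CS α β x3) : MD X CS α β fun K _ a r v n =>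
      Cg2 a r (x1 K a r v n) (f1 n) (f2 n) (x2 K a r v n) (x3 K a r v n) :=
  MD.ex (MD.ex (MD.ex ((D_InA (MT.var _)).and ((D_Im h3 (h5.rel _ _) (MT.var _)).and
    ((D_Im h2 (MT.var _) (MT.var _)).and (MD.eq (h4.rel _ _)
      (((MT.var _).mul (((h1.rel _ _).mul (MT.var _)).mul (h1.rel _ _).inv)).mul
        (MT.var _).inv)))))))

lemma D_Cd2 (h1 : MT X CS α β x1) (h2 : MT X CS α β x2) (h3 : NT β f1) (h4 : MT X CS α β x3)
    (h5 : NT β f2) (h6 : NT β f3) (h7 : MT X CS α β x4) : MD X CS α β fun K _ a r v n =>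
      Cd2 a r (x1 K a r v n) (x2 K a r v n) (f1 n) (x3 K a r v n) (f2 n) (f3 n) (x4 K a r v n) :=
  (D_Cg2 h1 h6 h3 h2 ((h7.mul MT.a).mul h7.inv)).and
    (D_Cg2 h1 h6 h5 h4 (h1.cm ((h7.mul h1).mul h7.inv)))

lemma D_Ev2 (k : ℕ) {l : ℕ → Tm α β} (hl : ∀ i, MT X CS α β (l i)) (hf : NT β f1)
    (h3 : MT X CS α β x3) : MD X CS α β fun K _ a r v n =>
      Ev2 a r k (fun i => l i K a r v n) (f1 n) (x3 K a r v n) :=
  MD.allN ((MD.ar (Ar.eq (NT.var none) (NT.const 0)).not).imp (MD.ex (MD.ex (MD.exN (MD.exN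
    ((MD.ar (Ar.eq (NT.var (some none)) (NT.const 0)).not).and
    ((MD.ar (Ar.eq (NT.var none) (NT.const 0)).not).and
    ((D_Cd2 (MT.num _) (MT.var _) (NT.var _) (MT.var _) (NT.var _)
      ((NT.const 1).add ((NT.var _).mul (NT.const (0 + 1)))) (h3.rel _ _)).and
    ((D_Cd2 (MT.num _) (MT.var _) (NT.var _) (MT.var _) (NT.var _)
      ((NT.const 1).add ((NT.var _).mul ((hf.rel _).add (NT.const 1)))) MT.one).and
    (MD.allN ((MD.ar (Ar.lt (NT.var none) (hf.rel _))).imp (MD.ex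
      ((D_Cd2 (MT.num _) (MT.var _) (NT.var _) (MT.var _) (NT.var _)
        ((NT.const 1).add ((NT.var _).mul (((NT.var none).add (NT.const 1)).add (NT.const 1))))
        (MT.var _)).and
      (MD.exF fun i => (MD.ar (Ar.eq (((hf.rel _).div (NT.pow k (NT.var none))).mod
        (NT.const k)) (NT.const i))).and
        (D_Cd2 (MT.num _) (MT.var _) (NT.var _) (MT.var _) (NT.var _)
          ((NT.const 1).add ((NT.var _).mul ((NT.var none).add (NT.const 1))))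
          (((hl i).rel _ _).mul (MT.var _)))))))))))))))))

end md

end Pool.Agent.H.MP_c25739_lc
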