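import Pool.Agent.H.MP_c25739_lc.A

set_option autoImplicit false

namespace Pool.Agent.H.MP_c25739_lc

open Pool.Agent.H.MP_c33acd_lc

section modl
variable {H M : Type} [CommGroup H] [AddCommGroup M]

lemma alg_apply (ρ : Representation ℤ H M) (l : MonoidAlgebra ℤ H) (y : M) :
    ρ.asAlgebraHom l y = ∑ h ∈ l.coeff.support, l.coeff h • ρ h y := by
  rw [Representation.asAlgebraHom_def, MonoidAlgebra.lift_apply, Finsupp.sum,
    LinearMap.sum_apply]
  rfl

lemma alg_mem (ρ : Representation ℤ H M) (B : AddSubgroup M) (hB : ∀ h, ∀ y ∈ B, ρ h y ∈ B)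
    (l : MonoidAlgebra ℤ H) {y : M} (hy : y ∈ B) : ρ.asAlgebraHom l y ∈ B := by
  rw [alg_apply]
  exact sum_mem fun h _ => B.zsmul_mem (hB h y hy) _

lemma tf_inst (tf : TF H) : IsMulTorsionFree H := ⟨fun n hn a b e => by
  have e' : a ^ n = b ^ n := e
  exact mul_inv_eq_one.mp (tf _ n hn (by rw [mul_pow, inv_pow, e', mul_inv_cancel]))⟩

lemma emb [Group.FG H] (tf : TF H) (ρ : Representation ℤ H M)
    (hρ : ∀ l y, ρ.asAlgebraHom l y = 0 → l = 0 ∨ y = 0) {k : ℕ} (x : Fin k → M) :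
    ∃ (T : AddSubgroup M) (I : Type) (j : T →+ (H →₀ (I → ℤ))) (hT : ∀ h, ∀ y ∈ T, ρ h y ∈ T),
      (∀ i, x i ∈ T) ∧ Function.Injective j ∧
      ∀ h (y : T), j ⟨ρ h y, hT h y y.2⟩ = ac h (j y) := by
  classical
  have := tf_inst tf
  let _ : Module (MonoidAlgebra ℤ H) M := Module.compHom M ρ.asAlgebraHom.toRingHom
  have hs : ∀ (l : MonoidAlgebra ℤ H) (y : M), l • y = ρ.asAlgebraHom l y := fun _ _ => rfl
  have hs1 : ∀ (h : H) (y : M), ρ h y = MonoidAlgebra.single h (1 : ℤ) • y := fun h y => by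
    rw [hs, Representation.asAlgebraHom_single_one]
  obtain ⟨I, hI, hI'⟩ := exists_maximal_linearIndepOn (MonoidAlgebra ℤ H) x
  let N := Submodule.span (MonoidAlgebra ℤ H) (Set.range (fun i : I => x i))
  let b : Module.Basis I (MonoidAlgebra ℤ H) N := Module.Basis.span hI
  have ha : ∀ i, ∃ a : MonoidAlgebra ℤ H, a ≠ 0 ∧ a • x i ∈ N := by
    intro i
    by_cases hi : i ∈ I
    · exact ⟨1, one_ne_zero, by rw [one_smul]; exact Submodule.subset_span ⟨⟨i, hi⟩, rfl⟩⟩
    · have := hI' i hi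
      rwa [Set.image_eq_range] at this
  choose a ha ha' using ha
  have hA : ∏ i, a i ≠ 0 := Finset.prod_ne_zero_iff.mpr fun i _ => ha i
  let T := N.comap (LinearMap.lsmul (MonoidAlgebra ℤ H) M (∏ i, a i))
  let φ : T →ₗ[MonoidAlgebra ℤ H] N := (LinearMap.lsmul _ M (∏ i, a i)).restrict fun _ h => h
  let θ : (I →₀ MonoidAlgebra ℤ H) →+ (H →₀ (I → ℤ)) := AddMonoidHom.mk'
    (fun z => Finsupp.onFinset (Finset.univ.biUnion fun i => (z i).coeff.support)
      (fun h i => (z i).coeff h) (fun h hh => by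
        obtain ⟨i, hi⟩ := Function.ne_iff.mp hh
        exact Finset.mem_biUnion.mpr ⟨i, Finset.mem_univ _, Finsupp.mem_support_iff.mpr hi⟩))
    (fun z z' => by ext h i; simp)
  have hθ : ∀ z h i, θ z h i = (z i).coeff h := fun _ _ _ => rfl
  refine ⟨T.toAddSubgroup, I, θ.comp ((b.repr.toLinearMap.comp φ).toAddMonoidHom),
    fun h y hy => by rw [hs1]; exact T.smul_mem _ hy, fun i => ?_, ?_, fun h y => ?_⟩
  · change (∏ i, a i) • x i ∈ N
    rw [Fintype.prod_eq_prod_compl_mul i, mul_smul]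
    exact N.smul_mem _ (ha' i)
  · rw [injective_iff_map_eq_zero]
    intro y hy
    have h1 : b.repr (φ y) = 0 := by
      ext i h
      exact (hθ _ h i).symm.trans (congrFun (DFunLike.congr_fun hy h) i)
    have h2 : (∏ i, a i) • (y : M) = 0 := congrArg Subtype.val (b.repr.map_eq_zero_iff.mp h1)
    exact Subtype.ext ((hρ _ _ h2).resolve_left hA)
  · ext g i
    have e : (⟨ρ h y, by rw [hs1]; exact T.smul_mem _ y.2⟩ : T) =
        MonoidAlgebra.single h (1 : ℤ) • (show T from y) := Subtype.ext (hs1 h y)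
    rw [ac_apply]
    change ((b.repr.toLinearMap.comp φ) _ i).coeff g =
      ((b.repr.toLinearMap.comp φ) (show T from y) i).coeff (h⁻¹ * g)
    rw [e, map_smul, Finsupp.smul_apply, smul_eq_mul]
    conv_lhs => rw [← mul_inv_cancel_left h g]
    rw [MonoidAlgebra.coeff_single_mul_mul, one_mul]

lemma noeth [Group.FG H] {ι : Type} [Fintype ι] (B : AddSubgroup (H →₀ (ι → ℤ)))
    (hB : ∀ h, ∀ y ∈ B, ac h y ∈ B) : ∃ Z : Finset (H →₀ (ι → ℤ)), (∀ z ∈ Z, z ∈ B) ∧
      ∀ B' : AddSubgroup (H →₀ (ι → ℤ)), (∀ h, ∀ y ∈ B', ac h y ∈ B') → (∀ z ∈ Z, z ∈ B') →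
        B ≤ B' := by
  classical
  let ρ : Representation ℤ H (H →₀ (ι → ℤ)) :=
    { toFun := fun h => (ac h).toIntLinearMap
      map_one' := LinearMap.ext fun y => ac_one y
      map_mul' := fun h g => LinearMap.ext fun y => ac_mul h g y }
  let _ : Module (MonoidAlgebra ℤ H) (H →₀ (ι → ℤ)) := Module.compHom _ ρ.asAlgebraHom.toRingHom
  have hs1 : ∀ (h : H) (y : H →₀ (ι → ℤ)), ac h y = MonoidAlgebra.single h (1 : ℤ) • y :=
    fun h y => (LinearMap.congr_fun (ρ.asAlgebraHom_single_one h) y).symm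
  let sb : ∀ B : AddSubgroup (H →₀ (ι → ℤ)), (∀ h, ∀ y ∈ B, ac h y ∈ B) →
      Submodule (MonoidAlgebra ℤ H) (H →₀ (ι → ℤ)) := fun B hB =>
    { B with smul_mem' := fun l _ hy => alg_mem ρ B hB l hy }
  have : IsNoetherianRing (MonoidAlgebra ℤ H) := Algebra.FiniteType.isNoetherianRing ℤ _
  have : Module.Finite (MonoidAlgebra ℤ H) (H →₀ (ι → ℤ)) := by
    refine ⟨⟨Finset.univ.image fun i => Finsupp.single 1 (Pi.single i 1), ?_⟩⟩
    rw [eq_top_iff]
    rintro y -
    induction y using Finsupp.induction_linear with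
    | zero => exact zero_mem _
    | add y z hy hz => exact add_mem hy hz
    | single h v =>
      have : Finsupp.single h v = ∑ i, v i • ac h (Finsupp.single 1 (Pi.single i (1 : ℤ))) := by
        ext g i
        simp only [ac_single, mul_one, Finsupp.coe_finsetSum, Finset.sum_apply,
          Finsupp.smul_apply, Finsupp.single_apply]
        split_ifs <;> simp [Pi.single_apply]
      rw [this]
      refine sum_mem fun i _ => zsmul_mem ?_ _
      rw [hs1]
      exact Submodule.smul_mem _ _ (Submodule.subset_span (by simp))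
  obtain ⟨Z, hZ⟩ := IsNoetherian.noetherian (sb B hB)
  refine ⟨Z, fun z hz => ?_, fun B' hB' h y hy => ?_⟩
  · have : z ∈ sb B hB := hZ ▸ Submodule.subset_span hz
    exact this
  · have : sb B hB ≤ sb B' hB' := hZ ▸ Submodule.span_le.mpr h
    exact this hy

lemma rf_comm [Group.FG H] (tf : TF H) : Group.ResiduallyFinite H := by
  have : Module.Finite ℤ (Additive H) := Module.Finite.iff_addGroup_fg.mpr inferInstance
  have : Module.IsTorsionFree ℤ (Additive H) :=
    Module.IsTorsionFree.of_smul_eq_zero fun r x hx => by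
      by_cases h1 : x = 0
      · exact Or.inr h1
      · exact Or.inl (tf.zpow (h := x.toMul) h1 hx)
  refine Group.residuallyFinite_of_forall_exists_finite_monoidHom.{0} fun g hg => ?_
  let b := Module.Free.chooseBasis ℤ (Additive H)
  obtain ⟨i, hi⟩ : ∃ i, b.repr (Additive.ofMul g) i ≠ 0 := by
    by_contra hc
    push Not at hc
    exact hg (b.repr.map_eq_zero_iff.mp (Finsupp.ext hc))
  let k := (b.repr (Additive.ofMul g) i).natAbs + 1
  refine ⟨Multiplicative (ZMod k), inferInstance, inferInstance, AddMonoidHom.toMultiplicativeRight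
    ((Int.castAddHom (ZMod k)).comp (b.coord i).toAddMonoidHom), fun h => ?_⟩
  have h1 : ((b.repr (Additive.ofMul g) i : ℤ) : ZMod k) = 0 := h
  rw [ZMod.intCast_zmod_eq_zero_iff_dvd] at h1
  have := Int.natAbs_le_of_dvd_ne_zero h1 hi
  simp only [k, Int.natAbs_natCast] at this
  omega

end modl

lemma comm1 (ι : Type) (x y : FS ι 1) : x * y = y * x :=
  piFS_comm _ 0 x y (Subsingleton.elim _ _) (Subsingleton.elim _ _)

lemma hall (k : ℕ) (K : Subgroup (FS (Fin k) 2)) [hK : K.Normal] :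
    ∃ X : Finset (FS (Fin k) 2), Subgroup.normalClosure (X : Set _) = K := by
  classical
  let S := magFS (Fin k) 1
  let _ : CommGroup (FS (Fin k) 1) := { (inferInstance : Group _) with mul_comm := comm1 _ }
  have fg : Group.FG (FS (Fin k) 1) := Group.fg_of_surjective (QuotientGroup.mk'_surjective _)
  let bb : ∀ (L : Subgroup (FS (Fin k) 2)), AddSubgroup (FS (Fin k) 1 →₀ (Fin k → ℤ)) := fun L =>
    { carrier := {m | ∃ α ∈ L, S.π α = 1 ∧ S.D α = m}
      zero_mem' := ⟨1, L.one_mem, map_one _, S.D_one⟩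
      add_mem' := by
        rintro _ _ ⟨α, h0, h1, rfl⟩ ⟨β, h0', h2, rfl⟩
        exact ⟨α * β, L.mul_mem h0 h0', by simp [h1, h2], S.D_mulA h1 _⟩
      neg_mem' := by
        rintro _ ⟨α, h0, h1, rfl⟩
        exact ⟨α⁻¹, L.inv_mem h0, by simp [h1], S.D_invA h1⟩ }
  have hb : ∀ L : Subgroup (FS (Fin k) 2), L.Normal → ∀ h, ∀ y ∈ bb L, ac h y ∈ bb L := by
    rintro L hL h _ ⟨α, h0, h1, rfl⟩
    obtain ⟨g, rfl⟩ := S.surj h
    exact ⟨g * α * g⁻¹, hL.conj_mem _ h0 g, by simp [h1], S.D_conjA h1 g⟩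
  obtain ⟨Z, hZ, hZ'⟩ := noeth (bb K) (hb K hK)
  choose! z hz1 hz2 hz3 using hZ
  have : Module.Finite ℤ (Additive (FS (Fin k) 1)) :=
    Module.Finite.iff_addGroup_fg.mpr inferInstance
  obtain ⟨Y, hY⟩ : (K.map S.π).FG := by
    rw [Subgroup.fg_iff_add_fg]
    exact (Submodule.fg_iff_addSubgroup_fg (K.map S.π).toAddSubgroup.toIntSubmodule).mp
      (IsNoetherian.noetherian _)
  have hY1 : ∀ y ∈ Y, ∃ g ∈ K, S.π g = y := fun y hy =>
    show y ∈ K.map S.π from hY ▸ Subgroup.subset_closure hy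
  choose! u hu1 hu2 using hY1
  refine ⟨Z.image z ∪ Y.image u, le_antisymm (Subgroup.normalClosure_le_normal ?_) fun g hg => ?_⟩
  · intro x hx
    simp only [Finset.coe_union, Finset.coe_image, Set.mem_union] at hx
    rcases hx with ⟨y, hy, rfl⟩ | ⟨y, hy, rfl⟩
    · exact hz1 y hy
    · exact hu1 y hy
  set L := Subgroup.normalClosure ((Z.image z ∪ Y.image u : Finset _) : Set (FS (Fin k) 2))
  have h1 : K.map S.π ≤ (L ⊓ K).map S.π := by
    rw [← hY, Subgroup.closure_le]
    intro y hy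
    exact ⟨u y, ⟨Subgroup.subset_normalClosure (by simp; exact Or.inr ⟨y, hy, rfl⟩), hu1 y hy⟩,
      hu2 y hy⟩
  obtain ⟨v, ⟨hv1, hv2⟩, hv⟩ := h1 ⟨g, hg, rfl⟩
  have h2 : S.π (v⁻¹ * g) = 1 := by simp [hv]
  obtain ⟨β, hβ, h3, h4⟩ := hZ' (bb L) (hb L inferInstance) (fun y hy => ⟨z y,
    Subgroup.subset_normalClosure (by simp; exact Or.inl ⟨y, hy, rfl⟩), hz2 y hy, hz3 y hy⟩)
    ⟨v⁻¹ * g, K.mul_mem (K.inv_mem hv2) hg, h2, rfl⟩
  have := S.ext' (h3.trans h2.symm) h4
  rw [show g = v * β by rw [this]; simp]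
  exact L.mul_mem hv1 hβ

lemma ar_closure {n : ℕ} (X : Set (FreeGroup (Fin n)))
    (hX : ∀ {α : Type} {s : (α → ℕ) → FreeGroup (Fin n)}, FT n α s → Ar α fun v => s v ∈ X)
    {α : Type} {s : (α → ℕ) → FreeGroup (Fin n)} (hs : FT n α s) :
    Ar α fun v => s v ∈ Subgroup.closure X := by
  let R : ℕ × ℕ → ℕ × ℕ → Prop := fun p q => q.2 = 0 ∧ ∃ x,
    (dec n x ∈ X ∨ (dec n x)⁻¹ ∈ X) ∧ dec n q.1 = dec n p.1 * dec n x
  refine (Ar.ex (P := fun m v => dec n m = s v ∧ Relation.ReflTransGen R (0, 0) (m, 0))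
    (Ar.and hs (Ar.tc (fun γ a b c d ha hb hc hd => (Ar.eq hd (NT.const 0)).and
      (Ar.ex (((hX (FT.dec (NT.var _))).or (hX (FT.dec (NT.var _)).inv)).and
        (Ar.feq (FT.dec (hc.rel _)) ((FT.dec (ha.rel _)).mul (FT.dec (NT.var _)))))))
      (NT.const 0) (NT.const 0) (NT.var _) (NT.const 0)))).congr fun v => ?_
  constructor
  · rintro ⟨m, h1, h2⟩
    have : ∀ q, Relation.ReflTransGen R (0, 0) q → dec n q.1 ∈ Subgroup.closure X := by
      intro q h
      induction h with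
      | refl => rw [dec_zero]; exact one_mem _
      | tail _ h ih =>
        obtain ⟨-, x, hx, e⟩ := h
        rw [e]
        refine mul_mem ih ?_
        rcases hx with hx | hx
        · exact Subgroup.subset_closure hx
        · exact inv_mem_iff.mp (Subgroup.subset_closure hx)
    exact h1 ▸ this _ h2
  · intro h
    have step : ∀ g x : FreeGroup (Fin n), (x ∈ X ∨ x⁻¹ ∈ X) →
        (∃ m, dec n m = g ∧ Relation.ReflTransGen R (0, 0) (m, 0)) →
        ∃ m, dec n m = g * x ∧ Relation.ReflTransGen R (0, 0) (m, 0) := by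
      rintro _ x hx ⟨m, rfl, h⟩
      obtain ⟨x, rfl⟩ := dec_surj x
      obtain ⟨m', hm⟩ := dec_surj (dec n m * dec n x)
      exact ⟨m', hm, h.tail ⟨rfl, x, hx, hm⟩⟩
    generalize s v = g at h
    induction h using Subgroup.closure_induction_right with
    | one => exact ⟨0, dec_zero n, Relation.ReflTransGen.refl⟩
    | mul_right g _ z hz ih => exact step g z (Or.inl hz) ih
    | mul_inv_cancel g _ z hz ih => exact step g z⁻¹ (Or.inr (by simpa using hz)) ih

lemma ar_ker {k : ℕ} {G : Type} [Group G] (p : FreeGroup (Fin k) →* G)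
    (h : derivedSeries (FreeGroup (Fin k)) 2 ≤ p.ker)
    {α : Type} {s : (α → ℕ) → FreeGroup (Fin k)} (hs : FT k α s) : Ar α fun v => p (s v) = 1 := by
  let p' : FS (Fin k) 2 →* G := QuotientGroup.lift _ p h
  obtain ⟨X, hX⟩ := hall k p'.ker
  choose x hx using fun i : Fin X.card => QuotientGroup.mk_surjective (X.equivFin.symm i).1
  let Y : Set (FreeGroup (Fin k)) :=
    {y | y ∈ derivedSeries (FreeGroup (Fin k)) 2 ∨ ∃ u, ∃ i, y = dec k u * x i * (dec k u)⁻¹}
  refine (ar_closure Y (fun ht => (Ar.ds 2 ht).or (Ar.ex (Ar.exF fun i => Ar.feq (ht.rel _)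
    (((FT.dec (NT.var _)).mul (FT.const _)).mul (FT.dec (NT.var _)).inv)))) hs).congr fun v => ?_
  generalize s v = w
  constructor
  · intro hw
    refine (Subgroup.closure_le (K := p.ker)).mpr ?_ hw
    rintro y (hy | ⟨u, i, rfl⟩)
    · exact h hy
    · have : (QuotientGroup.mk (x i) : FS (Fin k) 2) ∈ p'.ker := by
        rw [← hX, hx]; exact Subgroup.subset_normalClosure (X.equivFin.symm i).2
      exact p.normal_ker.conj_mem _ this _
  · intro hw
    have h1 : (QuotientGroup.mk w : FS (Fin k) 2) ∈ Subgroup.normalClosure (X : Set _) := hX ▸ hw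
    have h2 : Subgroup.normalClosure (X : Set (FS (Fin k) 2)) ≤
        (Subgroup.closure Y).map (QuotientGroup.mk' _) := by
      rw [Subgroup.normalClosure, Subgroup.closure_le]
      intro y hy
      obtain ⟨z, hz, hc⟩ := Group.mem_conjugatesOfSet_iff.mp hy
      obtain ⟨c, rfl⟩ := isConj_iff.mp hc
      obtain ⟨c, rfl⟩ := QuotientGroup.mk_surjective c
      obtain ⟨u, rfl⟩ := dec_surj c
      refine ⟨_, Subgroup.subset_closure (Or.inr ⟨u, X.equivFin ⟨z, hz⟩, rfl⟩), ?_⟩
      rw [QuotientGroup.mk'_apply, QuotientGroup.mk_mul, QuotientGroup.mk_mul, QuotientGroup.mk_inv,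
        hx, Equiv.symm_apply_apply]
    obtain ⟨y, hy, e⟩ := h2 h1
    have h3 : y⁻¹ * w ∈ Subgroup.closure Y :=
      Subgroup.subset_closure (Or.inl (QuotientGroup.eq.mp e))
    simpa using mul_mem hy h3

lemma magInA {G H ι : Type} [Group G] [Group H] (S : Mag G H ι) (tf : TF H) {a : G}
    (a1 : S.π a = 1) (a0 : a ≠ 1) (y : G) : y * a = a * y ↔ S.π y = 1 := by
  refine ⟨fun h => ?_, fun h => S.commA h a1⟩
  by_contra hy
  exact a0 (S.inj a1 (fpf tf hy (by rw [← S.D_conjA a1, h]; simp)))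

lemma mag_tf {n : ℕ} {κ : Type} (t : Finset κ) (ht : t.Nonempty) (c : κ → ℤ) (hc : ∀ i ∈ t, c i ≠ 0)
    (g : κ → FS (Fin n) 1) (hg : ∀ i ∈ t, ∀ j ∈ t, g i = g j → i = j)
    (y : FS (Fin n) 1 →₀ (Fin n → ℤ)) (h : ∑ i ∈ t, c i • ac (g i) y = 0) : y = 0 := by
  classical
  let _ : CommGroup (FS (Fin n) 1) := { (inferInstance : Group _) with mul_comm := comm1 _ }
  have fg : Group.FG (FS (Fin n) 1) := Group.fg_of_surjective (QuotientGroup.mk'_surjective _)
  have := tf_inst (tf_FS (Fin n) 1)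
  by_contra h0
  obtain ⟨_, h1, p, hp, hu⟩ := UniqueProds.uniqueMul_of_nonempty (ht.image g)
    (Finsupp.support_nonempty_iff.mpr h0)
  obtain ⟨i, hi, rfl⟩ := Finset.mem_image.mp h1
  have h2 := DFunLike.congr_fun h (g i * p)
  rw [Finsupp.finsetSum_apply, Finset.sum_eq_single i] at h2
  · rw [Finsupp.smul_apply, ac_apply, inv_mul_cancel_left, Finsupp.zero_apply, smul_eq_zero] at h2
    exact Finsupp.mem_support_iff.mp hp (h2.resolve_left (hc i hi))
  · intro j hj hne
    rw [Finsupp.smul_apply, ac_apply]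
    by_contra h3
    exact hne (hg j hj i hi (hu (Finset.mem_image_of_mem g hj)
      (Finsupp.mem_support_iff.mpr (right_ne_zero_of_smul h3)) (by simp)).1)
  · intro h3; exact absurd hi h3

theorem main {G : Type} [Group G] {k n : ℕ} (p : FreeGroup (Fin k) →* G)
    (hp : Function.Surjective p) (na : ∃ x y : G, x * y ≠ y * x)
    (TL : ∀ X : Finset (FreeGroup (Fin k)), ∃ f : FreeGroup (Fin k) →* FS (Fin n) 2,
      ∀ w ∈ X, p w = 1 ↔ f w = 1) :
    derivedSeries (FreeGroup (Fin k)) 2 ≤ p.ker ∧ ∃ a r : G, Std a r ∧ ∀ m g,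
      Ev2 a r (2 * k + 2) (fun i => lt k (fun j => p (FreeGroup.of j)) i) m g ↔
        g = p (dec k m) := by
  classical
  let S := magFS (Fin n) 1
  have tf1 := tf_FS (Fin n) 1
  obtain ⟨x, y, hxy⟩ := na
  obtain ⟨x, rfl⟩ := hp x
  obtain ⟨y, rfl⟩ := hp y
  have cm1 : ∀ {K : Type} [Group K] (u v : K), cm u v = 1 ↔ u * v = v * u := fun u v => by
    rw [cm, mul_inv_eq_one, mul_inv_eq_iff_eq_mul]
  have mcm : ∀ {K K' : Type} [Group K] [Group K'] (f : K →* K') (u v : K),
      f (cm u v) = cm (f u) (f v) := fun f u v => by simp [cm]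
  have πcm : ∀ u v : FS (Fin n) 2, S.π (cm u v) = 1 := fun u v => by
    rw [mcm, cm1]; exact comm1 _ _ _
  let A := Subgroup.centralizer {p (cm x y)}
  have TL2 : ∀ X : Finset (FreeGroup (Fin k)), ∃ f : FreeGroup (Fin k) →* FS (Fin n) 2,
      ∀ w ∈ X, (p w = 1 ↔ f w = 1) ∧ (p w ∈ A ↔ S.π (f w) = 1) := by
    intro X
    obtain ⟨f, hf⟩ := TL (insert (cm x y) (X ∪ X.image fun w => cm w (cm x y)))
    refine ⟨f, fun w hw => ⟨hf w (by simp [hw]), ?_⟩⟩
    have h1 := hf (cm w (cm x y)) (Finset.mem_insert_of_mem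
      (Finset.mem_union_right _ (Finset.mem_image_of_mem _ hw)))
    have h2 : f (cm x y) ≠ 1 := mt (hf _ (by simp)).mpr (by rwa [mcm, cm1])
    rw [mcm, mcm f, cm1, cm1, magInA S tf1 (by rw [mcm, πcm]) h2] at h1
    rw [Subgroup.mem_centralizer_singleton_iff, h1]
  have P1 : ∀ u v, cm u v ∈ A := by
    intro u v
    obtain ⟨u, rfl⟩ := hp u
    obtain ⟨v, rfl⟩ := hp v
    obtain ⟨f, hf⟩ := TL2 {cm u v}
    rw [← mcm, (hf _ (by simp)).2, mcm, πcm]
  have P2 : ∀ u ∈ A, ∀ v ∈ A, u * v = v * u := by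
    intro u hu v hv
    obtain ⟨u, rfl⟩ := hp u
    obtain ⟨v, rfl⟩ := hp v
    obtain ⟨f, hf⟩ := TL2 {u, v, cm u v}
    rw [← cm1, ← mcm, (hf _ (by simp)).1, mcm, cm1]
    exact S.commA ((hf _ (by simp)).2.mp hu) ((hf _ (by simp)).2.mp hv)
  have nA : A.Normal := ⟨fun z hz g => by
    have := A.mul_mem (P1 g z) hz
    simpa [cm] using this⟩
  have P3 : TF (G ⧸ A) := by
    intro h m hm e
    obtain ⟨u, rfl⟩ := QuotientGroup.mk_surjective h
    obtain ⟨u, rfl⟩ := hp u
    obtain ⟨f, hf⟩ := TL2 {u, u ^ m}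
    rw [← QuotientGroup.mk_pow, ← map_pow, QuotientGroup.eq_one_iff, (hf _ (by simp)).2, map_pow,
      map_pow] at e
    rw [QuotientGroup.eq_one_iff, (hf _ (by simp)).2]
    exact tf1 _ m hm e
  refine ⟨fun w hw => ?_, ?_⟩
  · obtain ⟨f, hf⟩ := TL {w}
    have h1 := map_derivedSeries_le_derivedSeries f 2 ⟨w, hw, rfl⟩
    rw [← map_derivedSeries_eq (QuotientGroup.mk'_surjective (derivedSeries (FreeGroup (Fin n)) 2)),
      QuotientGroup.map_mk'_self] at h1
    exact (hf w (by simp)).mpr h1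
  have cH : ∀ u v : G ⧸ A, u * v = v * u := by
    intro u v
    obtain ⟨u, rfl⟩ := QuotientGroup.mk_surjective u
    obtain ⟨v, rfl⟩ := QuotientGroup.mk_surjective v
    rw [← cm1]
    exact (mcm (QuotientGroup.mk' A) u v).symm.trans ((QuotientGroup.eq_one_iff _).mpr (P1 u v))
  let _ : CommGroup (G ⧸ A) := { (inferInstance : Group _) with mul_comm := cH }
  let _ : CommGroup A := { (inferInstance : Group A) with
    mul_comm := fun u v => Subtype.ext (P2 _ u.2 _ v.2) }
  have fg : Group.FG (G ⧸ A) :=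
    Group.fg_of_surjective (f := (QuotientGroup.mk' A).comp p)
      ((QuotientGroup.mk'_surjective A).comp hp)
  have rf := rf_comm P3
  let ρ0 : G →* Module.End ℤ (Additive A) :=
    { toFun := fun g => (MonoidHom.toAdditive (MulAut.conjNormal g).toMonoidHom).toIntLinearMap
      map_one' := LinearMap.ext fun z => Subtype.ext (by
        change 1 * (z.toMul : G) * 1⁻¹ = z.toMul; simp)
      map_mul' := fun g h => LinearMap.ext fun z => Subtype.ext (by
        change g * h * (z.toMul : G) * (g * h)⁻¹ = g * (h * z.toMul * h⁻¹) * g⁻¹; group) }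
  let ρ : Representation ℤ (G ⧸ A) (Additive A) := QuotientGroup.lift A ρ0 fun g hg =>
    LinearMap.ext fun z => Subtype.ext (by
      change g * (z.toMul : G) * g⁻¹ = z.toMul
      rw [P2 _ hg _ z.toMul.2]; simp)
  have hρ : ∀ g z, ((ρ (QuotientGroup.mk g) z).toMul : G) = g * z.toMul * g⁻¹ := fun _ _ => rfl
  have P4 : ∀ l z, ρ.asAlgebraHom l z = 0 → l = 0 ∨ z = 0 := by
    intro l z h
    by_contra hc
    push Not at hc
    obtain ⟨α, hα⟩ := hp z.toMul
    choose σ hσ using (QuotientGroup.mk'_surjective A).comp hp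
    let W : List (G ⧸ A) → FreeGroup (Fin k) := fun L =>
      (L.map fun h => (σ h * α * (σ h)⁻¹) ^ l.coeff h).prod
    have h1 : ∀ L, p (W L) = ((L.map fun h => l.coeff h • ρ h z).sum).toMul := by
      intro L
      induction L with
      | nil => simp [W]
      | cons h L ih =>
        simp only [W, List.map_cons, List.prod_cons, List.sum_cons, map_mul, map_zpow, map_inv,
          toMul_add, Subgroup.coe_mul, toMul_zsmul, SubgroupClass.coe_zpow] at ih ⊢
        rw [ih, hα, ← hρ]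
        congr 5
        exact congrArg ρ (hσ h)
    obtain ⟨f, hf⟩ := TL2 (insert α (insert (W l.coeff.support.toList)
      (Finset.image₂ (fun h h' => (σ h)⁻¹ * σ h') l.coeff.support l.coeff.support)))
    have h2 : S.π (f α) = 1 := (hf _ (by simp)).2.mp (hα ▸ z.toMul.2)
    have h3 : ∀ L, S.π (f (W L)) = 1 ∧
        S.D (f (W L)) = (L.map fun h => l.coeff h • ac (S.π (f (σ h))) (S.D (f α))).sum := by
      intro L
      induction L with
      | nil => simp [W, S.D_one]
      | cons h L ih =>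
        have h4 : S.π (f (σ h) * f α * (f (σ h))⁻¹) = 1 := by simp [h2]
        simp only [W, List.map_cons, List.prod_cons, List.sum_cons, map_mul f, map_zpow f,
          map_inv f] at ih ⊢
        refine ⟨by rw [map_mul, ih.1, map_zpow, h4]; simp, ?_⟩
        rw [S.D_mulA (by rw [map_zpow, h4]; simp), S.D_zpowA h4, S.D_conjA h2, ih.2]
    have h4 := (h3 l.coeff.support.toList).2
    rw [(hf _ (by simp)).1.mp (by rw [h1, Finset.sum_map_toList, ← alg_apply, h]; rfl), S.D_one,
      Finset.sum_map_toList] at h4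
    have h5 := mag_tf _ (Finsupp.support_nonempty_iff.mpr fun e => hc.1 (MonoidAlgebra.ext e)) _
      (fun i hi => Finsupp.mem_support_iff.mp hi) _ (fun i hi j hj e => by
        have := (hf ((σ i)⁻¹ * σ j) (Finset.mem_insert_of_mem (Finset.mem_insert_of_mem
          (Finset.mem_image₂_of_mem hi hj)))).2.mpr (by simp [e])
        rw [map_mul, map_inv, ← QuotientGroup.eq] at this
        exact (hσ i).symm.trans (this.trans (hσ j))) _ h4.symm
    exact hc.2 (Subtype.ext (hα.symm.trans ((hf _ (by simp)).1.mpr (S.inj h2 h5))))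
  obtain ⟨s, hs⟩ : ∃ s, s ∉ A := by
    by_contra hc
    push Not at hc
    exact hxy (P2 _ (hc _) _ (hc _))
  let D' : G → Additive A := fun g => Additive.ofMul ⟨cm g s, P1 g s⟩
  have hD' : ∀ g g', D' (g * g') = D' g + ρ (QuotientGroup.mk g) (D' g') := fun g g' => by
    rw [add_comm]
    apply Subtype.ext
    change cm (g * g') s = g * cm g' s * g⁻¹ * cm g s
    simp only [cm]; group
  obtain ⟨T, I, j, hT, h1, h2, h3⟩ := emb P3 ρ P4 fun i => D' (p (FreeGroup.of i))
  have hDT : ∀ g, D' g ∈ T := by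
    intro g
    obtain ⟨w, rfl⟩ := hp g
    have h0 : D' 1 = 0 := Subtype.ext (show cm 1 s = 1 by simp [cm])
    induction w using FreeGroup.induction_on with
    | C1 => rw [map_one, h0]; exact T.zero_mem
    | of i => exact h1 i
    | inv_of i ih =>
      have := hD' (p (FreeGroup.of i)⁻¹) (p (FreeGroup.of i))
      rw [← map_mul, inv_mul_cancel, map_one, h0] at this
      rw [eq_neg_of_add_eq_zero_left this.symm]
      exact T.neg_mem (hT _ _ ih)
    | mul v w hv hw => rw [map_mul, hD']; exact T.add_mem hv (hT _ _ hw)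
  have s0 : QuotientGroup.mk' A s ≠ 1 := fun e => hs ((QuotientGroup.eq_one_iff _).mp e)
  let S' : Mg G (G ⧸ A) I :=
    { π := QuotientGroup.mk' A
      surj := QuotientGroup.mk'_surjective A
      D := fun g => j ⟨D' g, hDT g⟩
      mul := fun g g' => by
        rw [← h3, ← map_add]; congr 1; exact Subtype.ext (hD' g g')
      inj := fun {g} e1 e2 => by
        have hg : g ∈ A := (QuotientGroup.eq_one_iff _).mp e1
        have h4 : cm g s = 1 :=
          congrArg (fun z : T => (z.1.toMul : G)) ((map_eq_zero_iff j h2).mp e2)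
        have := P4 (MonoidAlgebra.single (QuotientGroup.mk s) 1 - 1) (Additive.ofMul ⟨g, hg⟩) (by
          rw [map_sub, map_one, LinearMap.sub_apply, Representation.asAlgebraHom_single_one,
            sub_eq_zero]
          apply Subtype.ext
          change s * g * s⁻¹ = g
          rw [← (cm1 _ _).mp h4]; simp)
        rcases this with h | h
        · rw [sub_eq_zero, MonoidAlgebra.one_def] at h
          exact absurd (MonoidAlgebra.single_left_injective one_ne_zero h) s0
        · exact congrArg (fun z : Additive A => (z.toMul : G)) h }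
  obtain ⟨N, r, P⟩ := S'.exists_par P3 (a := p (cm x y)) (s := s)
    ((QuotientGroup.eq_one_iff _).mpr (by rw [mcm]; exact P1 _ _)) (by rwa [mcm, Ne, cm1]) s0 ⊤
    inferInstance (fun u _ v _ => cH u v) trivial
  exact ⟨_, r, P.std, fun m g => (P.ev_iff (by omega) (lt_zero _ _) m g).trans (by rw [map_dec])⟩

end Pool.Agent.H.MP_c25739_lc
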